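import Pool.Agent.Y624.SC.Stm

/-!
# Project SC of helper624, part CELL1 (helper606): coordinates in a cell of a regular simplex
-/

set_option autoImplicit false

namespace Pool.Agent.Y606.SC

open Finset

section

variable {d : ℕ} {v : Fin (d + 1) → EuclideanSpace ℝ (Fin d)}

/-- the inner products of the vertices -/
theorem ip (h1 : ∀ i, ‖v i‖ = 1) (h2 : ∀ i j, i ≠ j → inner ℝ (v i) (v j) = -1 / (d : ℝ))
    (hd : (d : ℝ) ≠ 0) (i j : Fin (d + 1)) :
    inner ℝ (v i) (v j) = (if i = j then 1 + 1 / (d : ℝ) else 0) - 1 / (d : ℝ) := by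
  by_cases h : i = j
  · subst h
    rw [if_pos rfl, real_inner_self_eq_norm_sq, h1]
    ring
  · rw [if_neg h, h2 i j h]
    ring

/-- the inner product of a combination with a vertex -/
theorem ipc (h1 : ∀ i, ‖v i‖ = 1) (h2 : ∀ i j, i ≠ j → inner ℝ (v i) (v j) = -1 / (d : ℝ))
    (hd : (d : ℝ) ≠ 0) (a : Fin (d + 1) → ℝ) (i : Fin (d + 1)) :
    inner ℝ (∑ j, a j • v j) (v i) = a i * (1 + 1 / (d : ℝ)) - (∑ j, a j) / d := by
  rw [sum_inner]
  have h : ∀ j : Fin (d + 1), inner ℝ (a j • v j) (v i) =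
      (if j = i then a j * (1 + 1 / (d : ℝ)) else 0) - a j / d := by
    intro j
    rw [real_inner_smul_left, ip h1 h2 hd]
    split_ifs <;> ring
  rw [Finset.sum_congr rfl fun j _ => h j, Finset.sum_sub_distrib, Finset.sum_ite_eq' univ i]
  rw [if_pos (mem_univ i), ← Finset.sum_div]

/-- the sum of the vertices is zero -/
theorem sum_zero (h1 : ∀ i, ‖v i‖ = 1)
    (h2 : ∀ i j, i ≠ j → inner ℝ (v i) (v j) = -1 / (d : ℝ)) (hd : (d : ℝ) ≠ 0) :
    ∑ j, v j = 0 := by
  have h : ∀ i, inner ℝ (∑ j, v j) (v i) = 0 := by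
    intro i
    have := ipc h1 h2 hd (fun _ => 1) i
    simp only [one_smul, sum_const, card_univ, Fintype.card_fin, nsmul_eq_mul, mul_one] at this
    rw [this]
    push_cast
    field_simp
    ring
  have h3 : inner ℝ (∑ j, v j) (∑ j, v j) = 0 := by
    rw [inner_sum]
    exact Finset.sum_eq_zero fun i _ => h i
  exact inner_self_eq_zero.mp h3

/-- a vector orthogonal to the vertices is zero -/
theorem orth (h1 : ∀ i, ‖v i‖ = 1)
    (h2 : ∀ i j, i ≠ j → inner ℝ (v i) (v j) = -1 / (d : ℝ)) (hd : (d : ℝ) ≠ 0)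
    (z : EuclideanSpace ℝ (Fin d)) (hz : ∀ i, inner ℝ z (v i) = 0) : z = 0 := by
  have hli : LinearIndependent ℝ (fun i : Fin d => v i.succ) := by
    rw [Fintype.linearIndependent_iff]
    intro g hg
    set a : Fin (d + 1) → ℝ := Fin.cons 0 g with ha
    have hs : ∑ j, a j • v j = 0 := by
      rw [Fin.sum_univ_succ, ha]
      simp only [Fin.cons_zero, zero_smul, zero_add, Fin.cons_succ]
      exact hg
    have hsum : ∑ j, a j = ∑ i, g i := by
      rw [Fin.sum_univ_succ, ha]
      simp only [Fin.cons_zero, zero_add, Fin.cons_succ]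
    have h3 : ∀ i : Fin d, g i * (1 + 1 / (d : ℝ)) - (∑ j, g j) / d = 0 := by
      intro i
      have h := ipc h1 h2 hd a i.succ
      rw [hs, inner_zero_left, hsum] at h
      rw [h, ha, Fin.cons_succ]
    have h4 : ∑ i : Fin d, (g i * (1 + 1 / (d : ℝ)) - (∑ j, g j) / d) = 0 :=
      Finset.sum_eq_zero fun i _ => h3 i
    rw [Finset.sum_sub_distrib, ← Finset.sum_mul] at h4
    simp only [sum_const, card_univ, Fintype.card_fin, nsmul_eq_mul] at h4
    have h5 : (∑ j, g j) = 0 := by
      have h6 : (d : ℝ) * ((∑ j, g j) / d) = ∑ j, g j := by field_simp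
      rw [h6] at h4
      have h7 : (∑ j, g j) * (1 / (d : ℝ)) = 0 := by linear_combination h4
      rcases mul_eq_zero.mp h7 with h8 | h8
      · exact h8
      · exact absurd h8 (one_div_ne_zero hd)
    intro i
    have h6 := h3 i
    rw [h5, zero_div, sub_zero] at h6
    rcases mul_eq_zero.mp h6 with h8 | h8
    · exact h8
    · exfalso
      have : (0 : ℝ) < 1 + 1 / (d : ℝ) := by
        have : (0 : ℝ) ≤ 1 / (d : ℝ) := by positivity
        linarith
      linarith
  have hspan : Submodule.span ℝ (Set.range fun i : Fin d => v i.succ) = ⊤ :=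
    hli.span_eq_top_of_card_eq_finrank' (by simp)
  have h3 : ∀ y ∈ Submodule.span ℝ (Set.range fun i : Fin d => v i.succ), inner ℝ z y = 0 := by
    intro y hy
    induction hy using Submodule.span_induction with
    | mem y hy =>
      obtain ⟨i, rfl⟩ := hy
      exact hz _
    | zero => exact inner_zero_right _
    | add x y _ _ hx hy => rw [inner_add_right, hx, hy, add_zero]
    | smul a x _ hx => rw [real_inner_smul_right, hx, mul_zero]
  have h4 : inner ℝ z z = 0 := h3 z (by rw [hspan]; exact Submodule.mem_top)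
  exact inner_self_eq_zero.mp h4

end

theorem done : Pool.Agent.Y624.SC.S_CELL1 := by
  intro d hd2 v h1 h2 x hx
  have hd0 : (0 : ℝ) < (d : ℝ) := by
    have : 0 < d := by omega
    exact_mod_cast this
  have hd : (d : ℝ) ≠ 0 := hd0.ne'
  have hd1 : (d : ℝ) + 1 ≠ 0 := by linarith
  have hsum : ∑ j, inner ℝ x (v j) = 0 := by
    rw [← inner_sum, sum_zero h1 h2 hd, inner_zero_right]
  refine ⟨fun j => (d : ℝ) / (d + 1) * (inner ℝ x (v 0) - inner ℝ x (v j)), by simp, ?_, ?_⟩
  · intro j
    have := hx j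
    have h3 : (0 : ℝ) ≤ (d : ℝ) / (d + 1) := by positivity
    exact mul_nonneg h3 (by linarith)
  · have hz := orth h1 h2 hd
      (x + ∑ j, ((d : ℝ) / (d + 1) * (inner ℝ x (v 0) - inner ℝ x (v j))) • v j) (by
      intro i
      rw [inner_add_left, ipc h1 h2 hd, ← Finset.mul_sum, Finset.sum_sub_distrib, hsum]
      simp only [sum_const, card_univ, Fintype.card_fin, nsmul_eq_mul]
      push_cast
      field_simp
      ring)
    exact eq_neg_of_add_eq_zero_left hz

end Pool.Agent.Y606.SC
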